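import Pool.Agent.U163.SL.Main

set_option autoImplicit false

/-! # Almost every prime is the least positive primitive root of infinitely many primes

There is a constant `C` such that for every `Y` all but at most `C` of the primes `a` with `Y ≤ a < 2 Y` are the
least positive primitive root modulo infinitely many primes.  So the set `S(a)` of Q1 is infinite for all but
`O(log X)` of the primes `a ≤ X`.  Quantitatively: for all large `x` and all `Y ≤ (log log x) / 7`, all but at
most `C` of the primes `a`, `Y ≤ a < 2 Y`, are the least positive primitive root modulo at least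
`x / (log x) ^ 3` primes `p ≤ x`. -/

namespace Pool.Agent.Results.MP_265190_nt.AlmostAllPrimes

open Finset Filter Classical

/-- the set `S(a)` of the primes `p` whose least positive primitive root is `a` -/
def S (a : ℕ) : Set ℕ :=
  {p | p.Prime ∧ 0 < a ∧ orderOf (a : ZMod p) = p - 1 ∧
    ∀ b : ℕ, 0 < b → b < a → orderOf (b : ZMod p) ≠ p - 1}

theorem result : ∃ C : ℕ,
    (∀ Y : ℕ, #{a ∈ Ico Y (2 * Y) | a.Prime ∧ ¬ (S a).Infinite} ≤ C) ∧
    ∀ᶠ x : ℕ in atTop, ∀ Y : ℕ, 7 * (Y : ℝ) ≤ Real.log (Real.log x) →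
      #{a ∈ Ico Y (2 * Y) | a.Prime ∧ (#{p ∈ Icc 1 x | p ∈ S a} : ℝ) < x / Real.log x ^ 3} ≤ C := by
  obtain ⟨C, h1, h2⟩ := Pool.Agent.U163.SL.infinite
  refine ⟨C, h1, ?_⟩
  filter_upwards [h2] with x hx Y hY
  refine le_trans (card_le_card fun a ha => ?_) (hx Y hY)
  rw [mem_filter] at ha ⊢
  refine ⟨ha.1, ha.2.1, lt_of_le_of_lt ?_ ha.2.2⟩
  have h3 : ((Icc 1 x).filter (fun p => p.Prime ∧ Pool.Agent.U163.SL.LPR p a)).card ≤
      #{p ∈ Icc 1 x | p ∈ S a} := by
    apply card_le_card
    intro p hp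
    rw [mem_filter] at hp ⊢
    exact hp
  exact_mod_cast h3

end Pool.Agent.Results.MP_265190_nt.AlmostAllPrimes
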